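import Mathlib
import Pool.Agent.Work.MP_345ef2_gt_24.T_HEAVY
import Pool.Agent.Work.MP_345ef2_irr.Loc

/-!
# Dihedral angles `π / 3` (MP_345ef2_gt): a component has at most one edge of label at least 4
-/

set_option autoImplicit false

namespace MP345

open Finset

variable {n : ℕ}

namespace CoxData

variable {D : CoxData n}

/-- a tree contains at most one heavy edge -/
theorem p3_unique : ∀ U : Finset D.ι, PD D.g U → D.TC U → ∀ a b c d : D.ι, a ∈ U → b ∈ U →
    c ∈ U → d ∈ U → D.Heavy a b → D.Heavy c d → ({a, b} : Finset D.ι) = {c, d} := by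
  classical
  intro U
  induction U using Finset.strongInduction with
  | H U ih =>
  intro hU ht a b c d ha hb hc hd hab hcd
  by_contra hne
  have h2U : 2 ≤ U.card := by
    have h1 : ({a, b} : Finset D.ι) ⊆ U := by
      intro z hz
      simp only [Finset.mem_insert, Finset.mem_singleton] at hz
      rcases hz with rfl | rfl
      · exact ha
      · exact hb
    have h2 := Finset.card_le_card h1
    rwa [Finset.card_pair hab.1.1] at h2
  have hdeg : ∀ y ∈ U, 1 ≤ (D.nb U y).card := fun y hy => D.deg_pos hU ht h2U hy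
  have hdeg2 : ∀ y ∈ U, (D.nb U y).card ≤ 2 :=
    D.stmtHEAVY U hU ht ⟨a, ha, b, hb, hab⟩
  have hleaf : ∀ y ∈ U, (D.nb U y).card = 1 → y = a ∨ y = b ∨ y = c ∨ y = d := by
    intro y hy h1
    by_contra hno
    push Not at hno
    exact hne (ih (U.erase y) (Finset.erase_ssubset hy) (hU.mono (Finset.erase_subset _ _))
      (D.tc_erase ht h2U hy h1) a b c d
      (Finset.mem_erase.2 ⟨Ne.symm hno.1, ha⟩) (Finset.mem_erase.2 ⟨Ne.symm hno.2.1, hb⟩)
      (Finset.mem_erase.2 ⟨Ne.symm hno.2.2.1, hc⟩) (Finset.mem_erase.2 ⟨Ne.symm hno.2.2.2, hd⟩)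
      hab hcd)
  have hpart : ∀ y ∈ U, (D.nb U y).card = 1 → ∀ u ∈ U, D.Adj y u → D.Heavy u y := by
    intro y hy h1 u hu hyu
    rcases hleaf y hy h1 with rfl | rfl | rfl | rfl
    · have := D.leaf_nb h1 hb hu hab.1 hyu
      rw [← this]
      exact hab.symm D
    · have := D.leaf_nb h1 ha hu (hab.1.symm D) hyu
      rw [← this]
      exact hab
    · have := D.leaf_nb h1 hd hu hcd.1 hyu
      rw [← this]
      exact hcd.symm D
    · have := D.leaf_nb h1 hc hu (hcd.1.symm D) hyu
      rw [← this]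
      exact hcd
  have hW : (U.filter fun x => (D.nb U x).card = 2).Nonempty := by
    by_contra hWe
    rw [Finset.not_nonempty_iff_eq_empty] at hWe
    have hall : ∀ y ∈ U, (D.nb U y).card = 1 := by
      intro y hy
      have h1 := hdeg y hy
      have h2 := hdeg2 y hy
      have h3 : (D.nb U y).card ≠ 2 := by
        intro h
        have : y ∈ U.filter fun x => (D.nb U x).card = 2 := Finset.mem_filter.2 ⟨hy, h⟩
        rw [hWe] at this
        exact absurd this (Finset.notMem_empty _)
      omega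
    have hUab : ({a, b} : Finset D.ι) = U := by
      by_contra hne2
      obtain ⟨s, hs, t, htU, htn, hst⟩ := D.stmtSPLIT U {a, b} hU ht (by
        intro z hz
        simp only [Finset.mem_insert, Finset.mem_singleton] at hz
        rcases hz with rfl | rfl
        · exact ha
        · exact hb) ⟨a, by simp⟩ hne2
      simp only [Finset.mem_insert, Finset.mem_singleton] at hs
      apply htn
      rcases hs with rfl | rfl
      · rw [← D.leaf_nb (hall _ ha) hb htU hab.1 hst]
        simp
      · rw [← D.leaf_nb (hall _ hb) ha htU (hab.1.symm D) hst]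
        simp
    apply hne
    symm
    apply Finset.eq_of_subset_of_card_le
    · intro z hz
      rw [hUab]
      simp only [Finset.mem_insert, Finset.mem_singleton] at hz
      rcases hz with rfl | rfl
      · exact hc
      · exact hd
    · rw [Finset.card_pair hab.1.1, Finset.card_pair hcd.1.1]
  refine core_test' hU (Finset.filter_subset _ _) hW ?_
  intro u hu
  obtain ⟨huU, hu2⟩ := Finset.mem_filter.1 hu
  obtain ⟨v, v', hvv, hnb⟩ := Finset.card_eq_two.1 hu2
  have hv : v ∈ U ∧ D.Adj u v := (mem_nb D).1 (by rw [hnb]; simp)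
  have hv' : v' ∈ U ∧ D.Adj u v' := (mem_nb D).1 (by rw [hnb]; simp)
  have hone : ∀ w ∈ U, w ∉ (U.filter fun x => (D.nb U x).card = 2) → (D.nb U w).card = 1 := by
    intro w hw hnW
    have h1 := hdeg w hw
    have h2 := hdeg2 w hw
    have h3 : (D.nb U w).card ≠ 2 := fun h => hnW (Finset.mem_filter.2 ⟨hw, h⟩)
    omega
  by_cases hvW : v ∈ (U.filter fun x => (D.nb U x).card = 2)
  · by_cases hvW' : v' ∈ (U.filter fun x => (D.nb U x).card = 2)
    · exact Or.inl ⟨v, hvW, v', hvW', hvv, hv.2, hv'.2⟩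
    · have h1 := hpart v' hv'.1 (hone v' hv'.1 hvW') u huU (hv'.2.symm D)
      exact Or.inr ⟨⟨v, hvW, hv.2⟩, Or.inl ⟨v', hv'.1, hvW', D.heavy_sq h1⟩⟩
  · have h1 := hpart v hv.1 (hone v hv.1 hvW) u huU (hv.2.symm D)
    by_cases hvW' : v' ∈ (U.filter fun x => (D.nb U x).card = 2)
    · exact Or.inr ⟨⟨v', hvW', hv'.2⟩, Or.inl ⟨v, hv.1, hvW, D.heavy_sq h1⟩⟩
    · have h2 := hpart v' hv'.1 (hone v' hv'.1 hvW') u huU (hv'.2.symm D)
      exact (no_heavy2 hU huU hv.1 hv'.1 hvv hv.2.1 hv'.2.1 (D.heavy_sq h1)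
        (D.heavy_sq h2)).elim

end CoxData

end MP345
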