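import Mathlib
import Pool.Agent.Work.MP_345ef2_pi3.Heavy
import Pool.Agent.Work.MP_345ef2_gt_24.T_TREE

/-!
# Dihedral angles `π / 3` (MP_345ef2_gt): the vertex level
-/

set_option autoImplicit false

namespace MP345

open Finset

variable {n : ℕ}

open scoped Classical in
/-- number of the edges of label 3 inside `v` and not inside `T` -/
noncomputable def eP {ι : Type*} [DecidableEq ι] (g : ι → ι → ℝ) (T v : Finset ι) : ℕ :=
  ((v.powersetCard 2).filter fun P =>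
    (∃ i ∈ P, ∃ j ∈ P, i ≠ j ∧ g i j = -(1 / 2)) ∧ ¬ P ⊆ T).card

namespace CoxData

variable {D : CoxData n}

theorem p3_conn {v : Finset D.ι} {i : D.ι} {x : D.ι} (hx : x ∈ D.cmp v i) :
    D.Cn (D.cmp v i) i x := cn_cmp (mem_cmp.1 hx).2

/-- the size of a component outside `T` -/
theorem p3_size {T v : Finset D.ι} (hv : PD D.g v) {i : D.ι} (hi : i ∈ v) :
    (D.cmp v i \ T).card ≤ eP D.g T (D.cmp v i) + 2 := by
  classical
  have hsub : D.cmp v i ⊆ v := fun j hj => (mem_cmp.1 hj).1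
  have hpd : PD D.g (D.cmp v i) := hv.mono hsub
  have hself := self_cmp (D := D) hi
  generalize hS : D.cmp v i = S at *
  have hconn : ∀ x ∈ S, D.Cn S i x := by
    intro x hx
    rw [← hS] at hx ⊢
    exact p3_conn hx
  -- `S` is a tree
  have h1 := nr_grow S _ {i} (by simpa using hself) rfl
    (fun x hx => ⟨i, by simp, hconn x hx⟩)
  have h2 : ((S.powersetCard 2).filter fun P => AdjP D.g P ∧ ¬ P ⊆ ({i} : Finset D.ι)).card ≤
      eN D.g S := by
    unfold eN
    refine Finset.card_le_card fun P hP => ?_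
    rw [Finset.mem_filter] at hP ⊢
    exact ⟨hP.1, hP.2.1⟩
  rw [Finset.card_singleton] at h1
  have htc : D.TC S := ⟨⟨i, hself⟩, by rw [ds_two_eN]; omega⟩
  -- growing `{i} ∪ (T ∩ S)`
  have h3 := nr_grow S _ (insert i (T ∩ S)) (by
      intro z hz
      rcases Finset.mem_insert.1 hz with rfl | hz
      · exact hself
      · exact (Finset.mem_inter.1 hz).2) rfl
    (fun x hx => ⟨i, Finset.mem_insert_self _ _, hconn x hx⟩)
  have h4 : ((S.powersetCard 2).filter fun P => AdjP D.g P ∧ ¬ P ⊆ insert i (T ∩ S)) ⊆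
      ((S.powersetCard 2).filter fun P =>
        (∃ i ∈ P, ∃ j ∈ P, i ≠ j ∧ D.g i j = -(1 / 2)) ∧ ¬ P ⊆ T) ∪
      ((S.powersetCard 2).filter fun P => ∃ a ∈ P, ∃ b ∈ P, D.Heavy a b) := by
    intro P hP
    rw [Finset.mem_filter] at hP
    obtain ⟨hP2, ⟨a, ha, b, hb, hab, hg⟩, hPT⟩ := hP
    have hPT' : ¬ P ⊆ T := fun h => hPT fun z hz => Finset.mem_insert_of_mem
      (Finset.mem_inter.2 ⟨h hz, (Finset.mem_powersetCard.1 hP2).1 hz⟩)
    rw [Finset.mem_union, Finset.mem_filter, Finset.mem_filter]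
    by_cases h : D.g a b = -(1 / 2)
    · exact Or.inl ⟨hP2, ⟨a, ha, b, hb, hab, h⟩, hPT'⟩
    · exact Or.inr ⟨hP2, a, ha, b, hb, ⟨hab, hg⟩, h⟩
  have h5 : ((S.powersetCard 2).filter fun P => ∃ a ∈ P, ∃ b ∈ P, D.Heavy a b).card ≤ 1 := by
    rw [Finset.card_le_one]
    have hpair : ∀ P ∈ (S.powersetCard 2).filter (fun P => ∃ a ∈ P, ∃ b ∈ P, D.Heavy a b),
        ∃ a b, a ∈ S ∧ b ∈ S ∧ D.Heavy a b ∧ P = {a, b} := by
      intro P hP
      rw [Finset.mem_filter, Finset.mem_powersetCard] at hP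
      obtain ⟨⟨hPS, hP2⟩, a, ha, b, hb, hab⟩ := hP
      refine ⟨a, b, hPS ha, hPS hb, hab, ?_⟩
      symm
      apply Finset.eq_of_subset_of_card_le
      · intro z hz
        simp only [Finset.mem_insert, Finset.mem_singleton] at hz
        rcases hz with rfl | rfl
        · exact ha
        · exact hb
      · rw [hP2, Finset.card_pair hab.1.1]
    intro P hP Q hQ
    obtain ⟨a, b, ha, hb, hab, rfl⟩ := hpair P hP
    obtain ⟨c, d, hc, hd, hcd, rfl⟩ := hpair Q hQ
    exact p3_unique S hpd htc a b c d ha hb hc hd hab hcd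
  have h6 := (Finset.card_le_card h4).trans (Finset.card_union_le _ _)
  have h7 : (insert i (T ∩ S)).card ≤ (T ∩ S).card + 1 := Finset.card_insert_le _ _
  have h8 : (S \ T).card + (T ∩ S).card = S.card := by
    rw [Finset.inter_comm]
    exact Finset.card_sdiff_add_card_inter S T
  have h9 : eP D.g T S = ((S.powersetCard 2).filter fun P =>
        (∃ i ∈ P, ∃ j ∈ P, i ≠ j ∧ D.g i j = -(1 / 2)) ∧ ¬ P ⊆ T).card := rfl
  omega

theorem eP_mono {T S v : Finset D.ι} (h : S ⊆ v) : eP D.g T S ≤ eP D.g T v := by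
  classical
  unfold eP
  refine Finset.card_le_card fun P hP => ?_
  rw [Finset.mem_filter] at hP ⊢
  exact ⟨Finset.powersetCard_mono h hP.1, hP.2⟩

/-- pairs outside `T` in common components against the edges of label 3 -/
theorem p3_pairs {T v : Finset D.ι} (hv : PD D.g v) :
    2 * (D.cT T v : ℝ) ≤ (eP D.g T v : ℝ) * ((eP D.g T v : ℝ) + 2) + (v \ T).card := by
  classical
  rw [two_cT]
  have h1 : ∑ i ∈ v \ T, (((D.cmp v i \ T).card : ℝ) - 1) ≤
      ∑ i ∈ v \ T, ((eP D.g T (D.cmp v i) : ℝ) + 1) := by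
    refine Finset.sum_le_sum fun i hi => ?_
    have h2 := p3_size (T := T) hv (Finset.mem_sdiff.1 hi).1
    have h3 : ((D.cmp v i \ T).card : ℝ) ≤ eP D.g T (D.cmp v i) + 2 := by exact_mod_cast h2
    linarith
  refine h1.trans ?_
  rw [Finset.sum_add_distrib, Finset.sum_const, nsmul_eq_mul, mul_one]
  have h4 : ∑ i ∈ v \ T, eP D.g T (D.cmp v i) ≤ eP D.g T v * (eP D.g T v + 2) := by
    have h5 : ∀ i ∈ v \ T, eP D.g T (D.cmp v i) =
        (((v.powersetCard 2).filter fun P =>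
          (∃ i ∈ P, ∃ j ∈ P, i ≠ j ∧ D.g i j = -(1 / 2)) ∧ ¬ P ⊆ T).filter
          (fun P => P ⊆ D.cmp v i)).card := by
      intro i hi
      unfold eP
      congr 1
      ext P
      simp only [Finset.mem_filter, Finset.mem_powersetCard]
      constructor
      · rintro ⟨⟨h6, h7⟩, h8⟩
        exact ⟨⟨⟨h6.trans fun j hj => (mem_cmp.1 hj).1, h7⟩, h8⟩, h6⟩
      · rintro ⟨⟨⟨h6, h7⟩, h8⟩, h9⟩
        exact ⟨⟨h9, h7⟩, h8⟩
    rw [Finset.sum_congr rfl h5]
    have h6 := Finset.sum_card_bipartiteAbove_eq_sum_card_bipartiteBelow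
      (s := v \ T) (t := (v.powersetCard 2).filter fun P =>
          (∃ i ∈ P, ∃ j ∈ P, i ≠ j ∧ D.g i j = -(1 / 2)) ∧ ¬ P ⊆ T)
      (fun i P => P ⊆ D.cmp v i)
    unfold Finset.bipartiteAbove Finset.bipartiteBelow at h6
    rw [h6]
    have h7 : ∀ P ∈ (v.powersetCard 2).filter (fun P =>
          (∃ i ∈ P, ∃ j ∈ P, i ≠ j ∧ D.g i j = -(1 / 2)) ∧ ¬ P ⊆ T),
        ((v \ T).filter fun i => P ⊆ D.cmp v i).card ≤ eP D.g T v + 2 := by
      intro P hP
      rw [Finset.mem_filter, Finset.mem_powersetCard] at hP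
      obtain ⟨⟨hPv, _⟩, _, hPT⟩ := hP
      obtain ⟨a, haP, haT⟩ := Finset.not_subset.1 hPT
      have h8 : ((v \ T).filter fun i => P ⊆ D.cmp v i) ⊆ D.cmp v a \ T := by
        intro i hi
        rw [Finset.mem_filter, Finset.mem_sdiff] at hi
        obtain ⟨⟨hiv, hiT⟩, hPi⟩ := hi
        exact Finset.mem_sdiff.2 ⟨mem_cmp.2 ⟨hiv, (mem_cmp.1 (hPi haP)).2.symm⟩, hiT⟩
      refine (Finset.card_le_card h8).trans ((p3_size (T := T) hv (hPv haP)).trans ?_)
      exact Nat.add_le_add_right (eP_mono fun j hj => (mem_cmp.1 hj).1) 2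
    refine (Finset.sum_le_sum h7).trans ?_
    rw [Finset.sum_const, smul_eq_mul]
    exact le_rfl
  have h10 : (∑ i ∈ v \ T, (eP D.g T (D.cmp v i) : ℝ)) ≤
      (eP D.g T v : ℝ) * ((eP D.g T v : ℝ) + 2) := by
    exact_mod_cast h4
  linarith

end CoxData

end MP345
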