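import Mathlib
import Pool.Agent.Work.MP_345ef2_pi3.Count

/-!
# Dihedral angles `π / 3` at the vertices of a face of a compact Coxeter polytope (MP_345ef2_gt)
-/

set_option autoImplicit false

namespace MP345

open Finset

variable {n : ℕ}

namespace CoxData

variable {D : CoxData n}

/-- the sum over the 2-faces of a face against the sum over its vertices -/
theorem p3_sum (T₀ : Finset D.ι) (hn : 2 ≤ n) :
    8 * ∑ K ∈ (Faces2 D.g n).filter (fun K => T₀ ⊆ K), max (5 - (kF D.g n K : ℝ)) 0 ≤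
      4 * ∑ v ∈ (Verts D.g n).filter (fun v => T₀ ⊆ v),
        (eP D.g T₀ v : ℝ) * ((eP D.g T₀ v : ℝ) + 2) +
      4 * ((n : ℝ) - T₀.card) * ((Verts D.g n).filter (fun v => T₀ ⊆ v)).card := by
  classical
  have hsum : ∑ K ∈ (Faces2 D.g n).filter (fun K => T₀ ⊆ K), max (5 - (kF D.g n K : ℝ)) 0 ≤
      ∑ v ∈ (Verts D.g n).filter (fun v => T₀ ⊆ v), (D.cT T₀ v : ℝ) := by
    have h3 : ∑ K ∈ (Faces2 D.g n).filter (fun K => T₀ ⊆ K), max (5 - (kF D.g n K : ℝ)) 0 ≤
        ∑ K ∈ (Faces2 D.g n).filter (fun K => T₀ ⊆ K), (D.cc K : ℝ) :=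
      Finset.sum_le_sum fun K hK => ir_face (Finset.mem_filter.1 hK).1
    have h4 : ∑ K ∈ (Faces2 D.g n).filter (fun K => T₀ ⊆ K), (D.cc K : ℝ) =
        ∑ v ∈ (Verts D.g n).filter (fun v => T₀ ⊆ v), (D.cT T₀ v : ℝ) := by
      exact_mod_cast fa_cc T₀ hn
    linarith
  have h5 : ∑ v ∈ (Verts D.g n).filter (fun v => T₀ ⊆ v), 2 * (D.cT T₀ v : ℝ) ≤
      ∑ v ∈ (Verts D.g n).filter (fun v => T₀ ⊆ v),
        ((eP D.g T₀ v : ℝ) * ((eP D.g T₀ v : ℝ) + 2) + ((n : ℝ) - T₀.card)) := by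
    refine Finset.sum_le_sum fun v hv => ?_
    obtain ⟨hv1, hv2⟩ := Finset.mem_filter.1 hv
    obtain ⟨hvp, hvc⟩ := mem_Verts.1 hv1
    have h6 := p3_pairs (T := T₀) hvp
    have h7 : ((v \ T₀).card : ℝ) = (n : ℝ) - T₀.card := by
      have h8 := Finset.card_sdiff_add_card_eq_card hv2
      rw [hvc] at h8
      have h9 : ((v \ T₀).card : ℝ) + T₀.card = n := by exact_mod_cast h8
      linarith
    rw [h7] at h6
    exact h6
  rw [← Finset.mul_sum, Finset.sum_add_distrib, Finset.sum_const, nsmul_eq_mul] at h5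
  nlinarith

end CoxData

namespace Cone

variable (C : Cone n)

/-- a vertex of a face with many edges of label 3 -/
theorem p3_exists (hn : 2 ≤ n) (T₀ : Finset C.ι)
    (hT : ((Verts C.g n).filter (fun v => T₀ ⊆ v)).Nonempty) (hm : T₀.card + 2 ≤ n) :
    ∃ v ∈ (Verts C.g n).filter (fun v => T₀ ⊆ v), n ≤ T₀.card + 2 * eP C.g T₀ v + 8 := by
  by_contra hcon
  push Not at hcon
  have hpos : (0 : ℝ) < ((Verts C.g n).filter (fun v => T₀ ⊆ v)).card := by
    exact_mod_cast Finset.card_pos.2 hT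
  have h0 : 8 * ∑ K ∈ (Faces2 C.g n).filter (fun K => T₀ ⊆ K), max (5 - (kF C.g n K : ℝ)) 0 ≤
      4 * ∑ v ∈ (Verts C.g n).filter (fun v => T₀ ⊆ v),
        (eP C.g T₀ v : ℝ) * ((eP C.g T₀ v : ℝ) + 2) +
      4 * ((n : ℝ) - T₀.card) * ((Verts C.g n).filter (fun v => T₀ ⊆ v)).card :=
    CoxData.p3_sum (D := C.toCoxData) T₀ hn
  have hbound : ∀ B : ℝ, (∀ v ∈ (Verts C.g n).filter (fun v => T₀ ⊆ v),
      4 * ((eP C.g T₀ v : ℝ) * ((eP C.g T₀ v : ℝ) + 2)) ≤ B) →
      4 * ∑ v ∈ (Verts C.g n).filter (fun v => T₀ ⊆ v),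
        (eP C.g T₀ v : ℝ) * ((eP C.g T₀ v : ℝ) + 2) ≤
      B * ((Verts C.g n).filter (fun v => T₀ ⊆ v)).card := by
    intro B hB
    rw [Finset.mul_sum]
    refine (Finset.sum_le_sum hB).trans ?_
    rw [Finset.sum_const, nsmul_eq_mul, mul_comm]
  obtain ⟨v0, hv0⟩ := id hT
  have h5 := hcon v0 hv0
  obtain ⟨m, hmn⟩ : ∃ m, n = T₀.card + m := ⟨n - T₀.card, by omega⟩
  have hr : (n : ℝ) - T₀.card = m := by
    have : (n : ℝ) = T₀.card + m := by exact_mod_cast hmn
    linarith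
  rw [hr] at h0
  by_cases hm9 : m = 9
  · have h1 := C.fa_lt T₀ hT hm
    rw [hr] at h1
    have h3 : m ≤ 4 * 2 := CoxData.ir_boundT (D := C.toCoxData) T₀ hn hmn (by omega) hT
      (fun v hv i hi => by
        obtain ⟨hv1, hv2⟩ := Finset.mem_filter.1 hv
        have h6 := hcon v hv
        have h7 : (CoxData.cmp (D := C.toCoxData) v i \ T₀).card ≤
            eP C.g T₀ (CoxData.cmp (D := C.toCoxData) v i) + 2 :=
          CoxData.p3_size (D := C.toCoxData) (mem_Verts.1 hv1).1 (Finset.mem_sdiff.1 hi).1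
        have h8 : eP C.g T₀ (CoxData.cmp (D := C.toCoxData) v i) ≤ eP C.g T₀ v :=
          CoxData.eP_mono (D := C.toCoxData) fun j hj => (CoxData.mem_cmp.1 hj).1
        omega) h1 (fun k hk => by
        have h2 := C.fa_odd_lt T₀ hT (k := k) (by omega) (by omega)
        rw [hr] at h2
        exact h2)
    omega
  · rcases Nat.even_or_odd' m with ⟨k, hk | hk⟩
    · have h1 := C.fa_lt T₀ hT hm
      rw [hr] at h1
      have hm10 : (10 : ℝ) ≤ m := by
        have : 10 ≤ m := by omega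
        exact_mod_cast this
      have h2 := hbound ((m : ℝ) * (m - 10)) (fun v hv => by
        have h6 := hcon v hv
        have h7 : 2 * eP C.g T₀ v + 10 ≤ m := by omega
        have h8 : 2 * (eP C.g T₀ v : ℝ) + 10 ≤ m := by exact_mod_cast h7
        have h9 : (0 : ℝ) ≤ eP C.g T₀ v := Nat.cast_nonneg _
        nlinarith)
      nlinarith
    · have h1 := C.fa_odd_lt T₀ hT (k := k) (by omega) (by omega)
      rw [hr] at h1
      have hm11 : (11 : ℝ) ≤ m := by
        have : 11 ≤ m := by omega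
        exact_mod_cast this
      have h2 := hbound (((m : ℝ) - 1) * (m - 5) - 4 * m) (fun v hv => by
        have h6 := hcon v hv
        have h7 : 2 * eP C.g T₀ v + 9 ≤ m := by omega
        have h8 : 2 * (eP C.g T₀ v : ℝ) + 9 ≤ m := by exact_mod_cast h7
        have h9 : (0 : ℝ) ≤ eP C.g T₀ v := Nat.cast_nonneg _
        nlinarith)
      nlinarith

end Cone

/-- the number of the pairs of facets in `v`, not both in `T`, whose dihedral angle is `π / 3` -/
noncomputable def piThree (P : CoxeterPolytope n) (T v : Finset P.ι) : ℕ :=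
  open scoped Classical in
  ((v.powersetCard 2).filter fun p =>
    (∃ i ∈ p, ∃ j ∈ p, i ≠ j ∧ lor (P.u i) (P.u j) = -(1 / 2)) ∧ ¬ p ⊆ T).card

theorem pt_e (P : CoxeterPolytope n) (C : Cone n) (e : C.ι ≃ P.ι)
    (he : ∀ i, C.u i = P.u (e i)) (T v : Finset C.ι) :
    piThree P (T.map e.toEmbedding) (v.map e.toEmbedding) = eP C.g T v := by
  classical
  unfold piThree eP
  refine (Finset.card_nbij' (fun p => p.map e.toEmbedding) (fun q => q.map e.symm.toEmbedding)
    ?_ ?_ ?_ ?_).symm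
  · intro p hp
    simp only [Finset.coe_filter, Finset.mem_powersetCard, Set.mem_ofPred_eq] at hp ⊢
    obtain ⟨⟨h1, h2⟩, ⟨i, hi, j, hj, hij, hg⟩, hT⟩ := hp
    refine ⟨⟨Finset.map_subset_map.2 h1, by rw [Finset.card_map]; exact h2⟩, ⟨e i,
      Finset.mem_map_of_mem _ hi, e j, Finset.mem_map_of_mem _ hj,
      fun h => hij (e.injective h), ?_⟩, fun hs => hT (Finset.map_subset_map.1 hs)⟩
    rw [← he, ← he]
    exact hg
  · intro q hq
    simp only [Finset.coe_filter, Finset.mem_powersetCard, Set.mem_ofPred_eq] at hq ⊢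
    obtain ⟨⟨h1, h2⟩, ⟨i, hi, j, hj, hij, hg⟩, hT⟩ := hq
    refine ⟨⟨?_, by rw [Finset.card_map]; exact h2⟩, ⟨e.symm i,
      Finset.mem_map_of_mem _ hi, e.symm j, Finset.mem_map_of_mem _ hj,
      fun h => hij (e.symm.injective h), ?_⟩, ?_⟩
    · have h3 := Finset.map_subset_map (f := e.symm.toEmbedding).2 h1
      rwa [nr_mapmap] at h3
    · unfold Cone.g
      rw [he, he, e.apply_symm_apply, e.apply_symm_apply]
      exact hg
    · intro hs
      apply hT
      have h3 := Finset.map_subset_map (f := e.toEmbedding).2 hs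
      rwa [nr_mapmap'] at h3
  · intro p _
    exact nr_mapmap e p
  · intro q _
    exact nr_mapmap' e q

/-- **Dihedral angles `π / 3` at a vertex of a face.** -/
theorem pi_three (hn : 2 ≤ n) (P : CoxeterPolytope n) (T : Finset P.ι)
    (hT : (VFace P T).Nonempty) (hm : T.card + 2 ≤ n) :
    ∃ v ∈ VFace P T, n ≤ T.card + 2 * piThree P T v + 8 := by
  classical
  obtain ⟨C, e, he⟩ := fl_cone (by omega) P
  obtain ⟨T₀, rfl⟩ : ∃ T₀ : Finset C.ι, T = T₀.map e.toEmbedding :=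
    ⟨T.map e.symm.toEmbedding, (nr_mapmap' e T).symm⟩
  rw [Finset.card_map] at hm
  simp only [Finset.card_map]
  have hne : ((Verts C.g n).filter (fun v => T₀ ⊆ v)).Nonempty := by
    obtain ⟨w, hw⟩ := hT
    obtain ⟨h1, h2⟩ := mem_VFace.1 hw
    refine ⟨_, Finset.mem_filter.2 ⟨nr_v2 P C e he h1, ?_⟩⟩
    have h3 := Finset.map_subset_map (f := e.symm.toEmbedding).2 h2
    rwa [nr_mapmap] at h3
  obtain ⟨v, hv, hle⟩ := C.p3_exists hn T₀ hne hm
  obtain ⟨h1, h2⟩ := Finset.mem_filter.1 hv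
  refine ⟨v.map e.toEmbedding,
    mem_VFace.2 ⟨nr_v1 (by omega) P C e he h1, Finset.map_subset_map.2 h2⟩, ?_⟩
  rw [pt_e P C e he]
  exact hle

end MP345
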